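import Mathlib

set_option autoImplicit false

open Cardinal Order Set

universe u

namespace Pool.Agent.Lib.MP_cf3da8_lc

theorem card_Iio_lt {c : Cardinal.{u}} (i : c.ord.ToType) : #(Iio i) < c := by
  have := mk_Iio_lt i (by rw [mk_ord_toType, Ordinal.type_toType])
  rwa [mk_ord_toType] at this

section ErdosRado

variable {W J : Type u} [LinearOrder W] [WellFoundedLT W]

/-- The canonical end-homogeneous sequence attached to `b`. -/
noncomputable def canon {I : Type u} [LinearOrder I] [WellFoundedLT I]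
    (d : W → W → J) (b : W) : I → W :=
  WellFounded.fix (wellFounded_lt (α := I)) (fun i s =>
    WellFounded.min (wellFounded_lt (α := W))
      {a : W | a = b ∨ ∀ (i' : I) (h : i' < i), s i' h < a ∧ d (s i' h) a = d (s i' h) b}
      ⟨b, Or.inl rfl⟩)

theorem canon_eq {I : Type u} [LinearOrder I] [WellFoundedLT I]
    (d : W → W → J) (b : W) (i : I) :
    canon d b i = WellFounded.min (wellFounded_lt (α := W))
      {a : W | a = b ∨ ∀ i' : I, i' < i → canon d b i' < a ∧
        d (canon d b i') a = d (canon d b i') b}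
      ⟨b, Or.inl rfl⟩ := by
  unfold canon
  rw [WellFounded.fix_eq]

theorem canon_mem {I : Type u} [LinearOrder I] [WellFoundedLT I]
    (d : W → W → J) (b : W) (i : I) :
    canon d b i = b ∨ ∀ i' : I, i' < i → canon d b i' < canon d b i ∧
        d (canon d b i') (canon d b i) = d (canon d b i') b := by
  have h := WellFounded.min_mem (wellFounded_lt (α := W))
      {a : W | a = b ∨ ∀ i' : I, i' < i → canon d b i' < a ∧
        d (canon d b i') a = d (canon d b i') b}
      ⟨b, Or.inl rfl⟩
  rw [← canon_eq] at h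
  exact h

theorem canon_le {I : Type u} [LinearOrder I] [WellFoundedLT I]
    (d : W → W → J) (b : W) (i : I) (a : W)
    (h : a = b ∨ ∀ i' : I, i' < i → canon d b i' < a ∧
        d (canon d b i') a = d (canon d b i') b) :
    canon d b i ≤ a := by
  rw [canon_eq]
  exact WellFounded.min_le (wellFounded_lt (α := W)) h

/-- Erdos-Rado: `(2^κ)^+ → (κ^+)^2_κ`. -/
theorem erdosRado (κ : Cardinal.{u}) (hκ : ℵ₀ ≤ κ) (hJ : #J ≤ κ) (hW : 2 ^ κ < #W)
    (d : W → W → J) :
    ∃ (j : J) (A : Set W), #A = succ κ ∧ ∀ a ∈ A, ∀ b ∈ A, a < b → d a b = j := by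
  classical
  set I : Type u := (succ κ).ord.ToType with hI
  have hIcard : #I = succ κ := by simp [hI]
  by_cases hcase : ∃ b : W, ∀ i : I, canon d b i ≠ b
  · obtain ⟨b, hb⟩ := hcase
    have hmono : ∀ i i' : I, i' < i → canon d b i' < canon d b i ∧
        d (canon d b i') (canon d b i) = d (canon d b i') b := by
      intro i i' h
      exact ((canon_mem d b i).resolve_left (hb i)) i' h
    have hsm : StrictMono (canon d b : I → W) := fun i' i h => (hmono i i' h).1
    obtain ⟨j, hj⟩ := infinite_pigeonhole (β := I) (α := J)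
      (fun i : I => d (canon d b i) b) (by rw [hIcard]; exact hκ.trans (le_succ κ))
      (by
        rw [hIcard, (isRegular_succ hκ).cof_ord]
        exact lt_succ_of_le hJ)
    refine ⟨j, (canon d b : I → W) '' ((fun i : I => d (canon d b i) b) ⁻¹' {j}), ?_, ?_⟩
    · rw [mk_image_eq hsm.injective, hj, hIcard]
    · rintro _ ⟨i', hi', rfl⟩ _ ⟨i, hi, rfl⟩ hlt
      have : i' < i := hsm.lt_iff_lt.1 hlt
      rw [(hmono i i' this).2]
      exact hi'
  · exfalso
    push Not at hcase
    -- least index at which the sequence stops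
    let idx : W → I := fun b => WellFounded.min (wellFounded_lt (α := I))
      {i : I | canon d b i = b} (hcase b)
    have hidx : ∀ b, canon d b (idx b) = b := fun b =>
      WellFounded.min_mem (wellFounded_lt (α := I)) {i : I | canon d b i = b} (hcase b)
    have hidx' : ∀ b i, i < idx b → canon d b i ≠ b := by
      intro b i hi h
      exact WellFounded.not_lt_min (wellFounded_lt (α := I)) (s := {i : I | canon d b i = b})
        h hi
    let Φ : W → Σ i : I, (Iio i → J) := fun b => ⟨idx b, fun i' => d (canon d b i'.1) b⟩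
    have hΦ1 : ∀ b b', Φ b = Φ b' → idx b = idx b' := fun b b' h => congrArg Sigma.fst h
    have hΦ2 : ∀ b b', Φ b = Φ b' → ∀ i', i' < idx b →
        d (canon d b i') b = d (canon d b' i') b' := by
      intro b b' h i' hi'
      have h2 : i' < idx b' := (hΦ1 b b' h) ▸ hi'
      have key : ∀ p q : (Σ i : I, (Iio i → J)), p = q → ∀ (hp : i' < p.1) (hq : i' < q.1),
          p.2 ⟨i', hp⟩ = q.2 ⟨i', hq⟩ := by
        rintro p q rfl hp hq; rfl
      exact key (Φ b) (Φ b') h hi' h2
    have hinj : ∀ b b', b < b' → Φ b ≠ Φ b' := by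
      intro b b' hlt hΦ
      have h1 := hΦ1 b b' hΦ
      have h2 := hΦ2 b b' hΦ
      have hsame : ∀ i : I, i < idx b → canon d b i = canon d b' i := by
        intro i
        induction i using WellFoundedLT.induction with
        | ind i IH =>
          intro hi
          have hib : canon d b i ≠ b := hidx' b i hi
          have hib' : canon d b' i ≠ b' := hidx' b' i (h1 ▸ hi)
          have hm := (canon_mem d b i).resolve_left hib
          have hm' := (canon_mem d b' i).resolve_left hib'
          apply le_antisymm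
          · apply canon_le
            right
            intro i' hi'
            have e := IH i' hi' (hi'.trans hi)
            have e2 := h2 i' (hi'.trans hi)
            refine ⟨?_, ?_⟩
            · rw [e]; exact (hm' i' hi').1
            · rw [e2, e]; exact (hm' i' hi').2
          · apply canon_le
            right
            intro i' hi'
            have e := IH i' hi' (hi'.trans hi)
            have e2 := h2 i' (hi'.trans hi)
            refine ⟨?_, ?_⟩
            · rw [← e]; exact (hm i' hi').1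
            · rw [← e2, ← e]; exact (hm i' hi').2
      have hle : canon d b' (idx b) ≤ b := by
        apply canon_le
        right
        intro i' hi'
        have e := hsame i' hi'
        have hib : canon d b i' ≠ b := hidx' b i' hi'
        have hle2 : canon d b i' ≤ b := canon_le d b i' b (Or.inl rfl)
        refine ⟨?_, ?_⟩
        · rw [← e]; exact lt_of_le_of_ne hle2 hib
        · rw [← h2 i' hi', ← e]
      rw [h1, hidx b'] at hle
      exact absurd hlt (not_lt.2 hle)
    have hinj' : Function.Injective Φ := by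
      intro b b' h
      rcases lt_trichotomy b b' with hlt | heq | hgt
      · exact absurd h (hinj b b' hlt)
      · exact heq
      · exact absurd h.symm (hinj b' b hgt)
    have hle : #W ≤ #(Σ i : I, (Iio i → J)) := mk_le_of_injective hinj'
    have hbound : #(Σ i : I, (Iio i → J)) ≤ 2 ^ κ := by
      rw [mk_sigma]
      have h1 : ∀ i : I, #(Iio i → J) ≤ 2 ^ κ := by
        intro i
        have hi : #(Iio i) < succ κ := card_Iio_lt i
        have hi' : #(Iio i) ≤ κ := lt_succ_iff.1 hi
        rw [← power_def]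
        calc #J ^ #(Iio i) ≤ κ ^ #(Iio i) := power_le_power_right hJ
          _ ≤ κ ^ κ := power_le_power_left (by
              exact (lt_of_lt_of_le aleph0_pos hκ).ne') hi'
          _ = 2 ^ κ := power_self_eq hκ
      calc Cardinal.sum (fun i : I => #(Iio i → J)) ≤ Cardinal.sum (fun _ : I => (2 ^ κ : Cardinal.{u})) :=
            sum_le_sum _ _ h1
        _ = #I * 2 ^ κ := by simp
        _ ≤ 2 ^ κ * 2 ^ κ := by
            gcongr
            rw [hIcard]
            exact succ_le_of_lt (cantor κ)
        _ = 2 ^ κ := mul_eq_self (hκ.trans (cantor κ).le)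
    exact absurd (hle.trans hbound) (not_le.2 hW)

end ErdosRado


section Construction

variable {lam : Cardinal.{u}}

/-- The family of rows: every set of columns of size `lam` meets all rows beyond some point, while
any `(2 ^ cf lam)⁺` rows have fewer than `lam` common points. -/
theorem construction (hsing : lam.IsSingular) (hpow : 2 ^ lam = succ lam)
    (hcof : 2 ^ lam.ord.cof < lam) :
    ∃ X : (succ lam).ord.ToType → Set lam.ord.ToType,
      (∀ B : Set lam.ord.ToType, #B = lam → ∃ b₀, ∀ b, b₀ < b → (X b ∩ B).Nonempty) ∧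
      (∀ A : Set (succ lam).ord.ToType, succ (2 ^ lam.ord.cof) ≤ #A →
        #(⋂ b ∈ A, X b : Set lam.ord.ToType) < lam) := by
  classical
  have hinf : ℵ₀ ≤ lam := hsing.aleph0_le
  set κ : Cardinal.{u} := lam.ord.cof with hκdef
  have hκ : ℵ₀ ≤ κ := by
    rw [hκdef, Ordinal.aleph0_le_cof_iff, Ordinal.one_lt_cof_iff]
    exact isSuccLimit_ord hinf
  have hsuccκ : succ κ < lam := lt_of_le_of_lt (succ_le_of_lt (cantor κ)) hcof
  set K : Type u := lam.ord.ToType with hK
  set L : Type u := (succ lam).ord.ToType with hL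
  have hKcard : #K = lam := by simp [hK]
  have hLcard : #L = succ lam := by simp [hL]
  have : Nonempty K := by
    rw [← mk_ne_zero_iff, hKcard]; exact (lt_of_lt_of_le aleph0_pos hinf).ne'
  obtain ⟨S, hS, hScard⟩ := exists_cof_eq K
  have hScard' : #S = κ := by rw [hScard, hκdef]; exact Ordinal.cof_toType _
  have hIio : ∀ b : L, #(Iio b) ≤ #K := by
    intro b
    rw [hKcard]
    exact lt_succ_iff.1 (card_Iio_lt b)
  have hIic : ∀ j : K, #(Iic j) < lam := by
    intro j
    have h1 : #(Iio j) < lam := card_Iio_lt j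
    have h2 : (Iic j : Set K) = insert j (Iio j) := by
      ext x; simp [le_iff_eq_or_lt]
    rw [h2]
    refine lt_of_le_of_lt mk_insert_le ?_
    exact add_lt_of_lt hinf h1 (lt_of_lt_of_le one_lt_aleph0 hinf)
  have hexe : ∀ b : L, ∃ f : Iio b → K, Function.Injective f := by
    intro b
    obtain ⟨f⟩ := (Cardinal.le_def _ _).1 (hIio b)
    exact ⟨f, f.injective⟩
  choose e he using hexe
  obtain ⟨s₀⟩ : Nonempty S := by
    rw [← mk_ne_zero_iff, hScard']; exact (lt_of_lt_of_le aleph0_pos hκ).ne'
  have hexd : ∀ (b a : L), ∃ s : S, ∀ h : a < b, e b ⟨a, h⟩ ≤ s := by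
    intro b a
    by_cases h : a < b
    · obtain ⟨y, hy, hle⟩ := hS (e b ⟨a, h⟩)
      exact ⟨⟨y, hy⟩, fun _ => hle⟩
    · exact ⟨s₀, fun h' => absurd h' h⟩
  choose d' hd' using hexd
  let d : L → L → S := fun a b => d' b a
  have hd : ∀ (a b : L) (h : a < b), e b ⟨a, h⟩ ≤ d a b := fun a b h => hd' b a h
  have hD : ∀ (b : L) (j : S), #{a : L | a < b ∧ d a b ≤ j} ≤ #(Iic (j : K)) := by
    intro b j
    refine mk_le_of_injective (f := fun a => ⟨e b ⟨a.1, a.2.1⟩, ?_⟩) ?_
    · exact (hd a.1 b a.2.1).trans a.2.2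
    · intro a a' h
      have h1 := congrArg Subtype.val h
      have h2 := he b h1
      have h3 := congrArg Subtype.val h2
      exact Subtype.ext h3
  -- enumeration of all subsets
  obtain ⟨Benum⟩ : Nonempty (L ≃ Set K) := by
    rw [← Cardinal.eq, mk_set, hLcard, hKcard, hpow]
  -- the recursive choice
  let x : L → L → K := WellFounded.fix (wellFounded_lt (α := L)) (fun b IH ζ =>
    if h : ∃ y ∈ Benum ζ, ∀ (b' : L) (hb : b' < b), d b' b ≤ d ζ b → ∀ ζ' : L, ζ' < b' →
      d ζ' b' ≤ d ζ b → y ≠ IH b' hb ζ' then h.choose else Classical.arbitrary K)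
  have hx : ∀ b ζ, x b ζ = if h : ∃ y ∈ Benum ζ, ∀ (b' : L) (_hb : b' < b), d b' b ≤ d ζ b →
      ∀ ζ' : L, ζ' < b' → d ζ' b' ≤ d ζ b → y ≠ x b' ζ' then h.choose
      else Classical.arbitrary K := by
    intro b ζ
    simp only [x]
    rw [WellFounded.fix_eq]
  have hex : ∀ b ζ, #(Benum ζ) = lam → ∃ y ∈ Benum ζ, ∀ (b' : L) (_hb : b' < b),
      d b' b ≤ d ζ b → ∀ ζ' : L, ζ' < b' → d ζ' b' ≤ d ζ b → y ≠ x b' ζ' := by
    intro b ζ hζ
    by_contra hcon
    push Not at hcon
    have hsub : (Benum ζ : Set K) ⊆ ⋃ b' ∈ {a : L | a < b ∧ d a b ≤ d ζ b},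
        (x b') '' {a : L | a < b' ∧ d a b' ≤ d ζ b} := by
      intro y hy
      obtain ⟨b', hb', h1, ζ', hζ', h2, h3⟩ := hcon y hy
      simp only [Set.mem_iUnion]
      exact ⟨b', ⟨hb', h1⟩, ζ', ⟨hζ', h2⟩, h3.symm⟩
    have hcard := mk_le_mk_of_subset hsub
    have hbd : #(⋃ b' ∈ {a : L | a < b ∧ d a b ≤ d ζ b},
        (x b') '' {a : L | a < b' ∧ d a b' ≤ d ζ b} : Set K) < lam := by
      refine lt_of_le_of_lt (mk_biUnion_le _ _) ?_
      refine lt_of_le_of_lt (mul_le_mul' (hD b (d ζ b)) (ciSup_le' (a := #(Iic (d ζ b : K))) ?_)) ?_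
      · intro b'
        exact mk_image_le.trans (hD b'.1 (d ζ b))
      · exact mul_lt_of_lt hinf (hIic _) (hIic _)
    rw [hζ] at hcard
    exact absurd hcard (not_le.2 hbd)
  have hxspec : ∀ b ζ, #(Benum ζ) = lam → x b ζ ∈ Benum ζ ∧ ∀ (b' : L) (_hb : b' < b),
      d b' b ≤ d ζ b → ∀ ζ' : L, ζ' < b' → d ζ' b' ≤ d ζ b → x b ζ ≠ x b' ζ' := by
    intro b ζ hζ
    have h := hex b ζ hζ
    rw [hx b ζ, dif_pos h]
    exact h.choose_spec
  refine ⟨fun b => {y | ∃ ζ : L, ζ < b ∧ #(Benum ζ) = lam ∧ x b ζ = y}, ?_, ?_⟩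
  · intro B hB
    refine ⟨Benum.symm B, fun b hb => ⟨x b (Benum.symm B), ?_, ?_⟩⟩
    · exact ⟨Benum.symm B, hb, by simpa using hB, rfl⟩
    · have := (hxspec b (Benum.symm B) (by simpa using hB)).1
      simpa using this
  · intro A hA
    obtain ⟨j₀, A', hA'card, hA'⟩ := erdosRado (W := A) (J := S) κ hκ hScard'.le
      (lt_of_lt_of_le (lt_succ _) hA) (fun a b => d a.1 b.1)
    have hsub : (⋂ b ∈ A, {y | ∃ ζ : L, ζ < b ∧ #(Benum ζ) = lam ∧ x b ζ = y} : Set K) ⊆
        ⋃ b ∈ (Subtype.val '' A' : Set L), (x b) '' {a : L | a < b ∧ d a b ≤ j₀} := by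
      intro y hy
      by_contra hyn
      have hz : ∀ b : A', ∃ ζ : L, ζ < b.1.1 ∧ #(Benum ζ) = lam ∧ x b.1.1 ζ = y := by
        intro b
        have := Set.mem_iInter₂.1 hy b.1.1 b.1.2
        exact this
      choose z hz1 hz2 hz3 using hz
      have hj : ∀ b : A', j₀ < d (z b) b.1.1 := by
        intro b
        by_contra hle
        apply hyn
        simp only [Set.mem_iUnion]
        exact ⟨b.1.1, ⟨b.1, b.2, rfl⟩, z b, ⟨hz1 b, not_lt.1 hle⟩, hz3 b⟩
      have hnotinj : ¬ Function.Injective (fun b : A' => d (z b) b.1.1) := by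
        intro hinj
        have := mk_le_of_injective hinj
        rw [hA'card, hScard'] at this
        exact absurd this (not_le.2 (lt_succ κ))
      have key : ∀ b' b : A', b'.1.1 < b.1.1 → d (z b') b'.1.1 ≠ d (z b) b.1.1 := by
        intro b' b hlt heq
        have h1 : d b'.1.1 b.1.1 = j₀ := hA' b'.1 b'.2 b.1 b.2 hlt
        have h2 := (hxspec b.1.1 (z b) (hz2 b)).2 b'.1.1 hlt (by rw [h1]; exact (hj b).le)
          (z b') (hz1 b') (by rw [heq])
        exact h2 (by rw [hz3, hz3])
      apply hnotinj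
      intro b' b heq
      rcases lt_trichotomy b'.1.1 b.1.1 with hlt | h | hgt
      · exact absurd heq (key b' b hlt)
      · exact Subtype.ext (Subtype.ext h)
      · exact absurd heq.symm (key b b' hgt)
    refine lt_of_le_of_lt (mk_le_mk_of_subset hsub) ?_
    refine lt_of_le_of_lt (mk_biUnion_le _ _) ?_
    refine lt_of_le_of_lt (mul_le_mul' (b := succ κ) ?_
      (ciSup_le' (a := #(Iic (j₀ : K))) ?_)) ?_
    · rw [mk_image_eq Subtype.val_injective, hA'card]
    · intro b'
      exact mk_image_le.trans (hD b'.1 j₀)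
    · exact mul_lt_of_lt hinf hsuccκ (hIic _)

end Construction

end Pool.Agent.Lib.MP_cf3da8_lc
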