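import Mathlib

/-!
The polarized partition relation and measurable cardinals: definitions.
-/

set_option autoImplicit false

open Cardinal Order Set

universe u

namespace Pool.Agent.Lib.MP_cf3da8_lc

/-- The set `A` has order type `o`: it is order isomorphic to the set of all ordinals below `o`. -/
def HasOrderType {X : Type*} [LinearOrder X] (A : Set X) (o : Ordinal.{u}) : Prop :=
  Nonempty (A ≃o Set.Iio o)

/-- The polarized partition relation `(lam, kap) → (α₀ α₁; β₀ β₁)` with two colours `false`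
(colour `0`) and `true` (colour `1`): for every colouring `c` of the product of `lam` and `kap`
(cardinals viewed as sets of ordinals) there are `A ⊆ lam`, `B ⊆ kap` of order types `α₀`, `β₀`
with `c` constantly `false` on `A × B`, or there are `A ⊆ lam`, `B ⊆ kap` of order types `α₁`, `β₁`
with `c` constantly `true` on `A × B`. -/
def Polarized (lam kap : Cardinal.{u}) (α₀ α₁ β₀ β₁ : Ordinal.{u}) : Prop :=
  ∀ c : Set.Iio lam.ord × Set.Iio kap.ord → Bool,
    (∃ (A : Set (Set.Iio lam.ord)) (B : Set (Set.Iio kap.ord)),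
      HasOrderType A α₀ ∧ HasOrderType B β₀ ∧ ∀ a ∈ A, ∀ b ∈ B, c (a, b) = false) ∨
    (∃ (A : Set (Set.Iio lam.ord)) (B : Set (Set.Iio kap.ord)),
      HasOrderType A α₁ ∧ HasOrderType B β₁ ∧ ∀ a ∈ A, ∀ b ∈ B, c (a, b) = true)

/-- `κ` is a measurable cardinal: it is uncountable and a set of size `κ` carries a nonprincipal
`κ`-complete ultrafilter. -/
def IsMeasurable (κ : Cardinal.{u}) : Prop :=
  ℵ₀ < κ ∧ ∃ (X : Type u) (U : Ultrafilter X), #X = κ ∧ (∀ x : X, {x} ∉ U) ∧
    CardinalInterFilter (U : Filter X) κ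

/-- Measurable cardinals are strong limit cardinals. -/
theorem IsMeasurable.two_power_lt {κ μ : Cardinal.{u}} (hκ : IsMeasurable κ) (hμ : μ < κ) :
    2 ^ μ < κ := by
  obtain ⟨_, X, U, hX, hnon, hcomp⟩ := hκ
  by_contra hcon
  have hle : #X ≤ 2 ^ μ := by rw [hX]; exact not_lt.1 hcon
  obtain ⟨M, hM⟩ : ∃ M : Type u, #M = μ := ⟨μ.out, mk_out μ⟩
  obtain ⟨f⟩ : Nonempty (X ↪ Set M) := by
    rw [← Cardinal.le_def, mk_set, hM]; exact hle
  let T : Set M := {m | {x : X | m ∈ f x} ∈ U}
  have hmem : (⋂ m : M, {x : X | (m ∈ f x ↔ m ∈ T)}) ∈ (U : Filter X) := by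
    rw [Filter.cardinal_iInter_mem (c := κ) (by rw [hM]; exact hμ)]
    intro m
    by_cases hm : m ∈ T
    · have : {x : X | (m ∈ f x ↔ m ∈ T)} = {x : X | m ∈ f x} := by
        ext x; simp [hm]
      rw [this]; exact hm
    · have : {x : X | (m ∈ f x ↔ m ∈ T)} = {x : X | m ∈ f x}ᶜ := by
        ext x; simp [hm]
      rw [this]
      exact Ultrafilter.compl_mem_iff_notMem.2 hm
  obtain ⟨x₀, hx₀⟩ := Filter.nonempty_of_mem hmem
  apply hnon x₀
  have hsub : (⋂ m : M, {x : X | (m ∈ f x ↔ m ∈ T)}) ⊆ {x₀} := by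
    intro x hx
    apply f.injective
    ext m
    have h1 := Set.mem_iInter.1 hx m
    have h2 := Set.mem_iInter.1 hx₀ m
    exact h1.trans h2.symm
  exact Filter.mem_of_superset hmem hsub

end Pool.Agent.Lib.MP_cf3da8_lc
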