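import Pool.Agent.Lib.MP_cf3da8_lc.Positive

/-!
Positive part: the fusion at limit ordinals of countable cofinality.
-/

set_option autoImplicit false

open Cardinal Order Set

universe v w

namespace Pool.Agent.Lib.MP_cf3da8_lc

section

variable {L K : Type v} [LinearOrder L]

/-- a cofinal sequence in a countable limit ordinal -/
theorem exists_seq_of_countable {α : Ordinal.{w}} (hlim : IsSuccLimit α)
    (hα : (Iio α).Countable) : ∃ s : ℕ → Ordinal.{w}, s 0 = 0 ∧ StrictMono s ∧ (∀ n, s n < α) ∧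
      ∀ i < α, ∃ n, s n ≤ i ∧ i < s (n + 1) := by
  classical
  have hpos : 0 < α := hlim.bot_lt
  obtain ⟨e, he⟩ := hα.exists_eq_range ⟨0, hpos⟩
  have heα : ∀ n, e n < α := by
    intro n
    have : e n ∈ Iio α := by rw [he]; exact ⟨n, rfl⟩
    exact this
  let s : ℕ → Ordinal.{w} := fun n => Nat.rec 0 (fun n x => succ (max x (e n))) n
  have hs0 : s 0 = 0 := rfl
  have hsS : ∀ n, s (n + 1) = succ (max (s n) (e n)) := fun n => rfl
  have hmono : StrictMono s := by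
    refine strictMono_nat_of_lt_succ fun n => ?_
    rw [hsS]
    exact (le_max_left _ _).trans_lt (Order.lt_succ _)
  have hsα : ∀ n, s n < α := by
    intro n
    induction n with
    | zero => exact hpos
    | succ n ih =>
      rw [hsS]
      exact hlim.succ_lt (max_lt ih (heα n))
  refine ⟨s, hs0, hmono, hsα, fun i hi => ?_⟩
  obtain ⟨k, hk⟩ : ∃ k, e k = i := by
    have : i ∈ Iio α := hi
    rw [he] at this
    exact this
  have hex : ∃ n, i < s n := ⟨k + 1, by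
    rw [hsS, ← hk]
    exact (le_max_right _ _).trans_lt (Order.lt_succ _)⟩
  obtain ⟨m, hm1, hm2⟩ : ∃ m, i < s m ∧ ∀ k < m, ¬ i < s k := by
    obtain ⟨m, hm, hmin⟩ := WellFounded.has_min (wellFounded_lt (α := ℕ)) {n | i < s n} hex
    exact ⟨m, hm, fun k hk hk' => hmin k hk' hk⟩
  have h0 : m ≠ 0 := by
    intro h
    rw [h, hs0] at hm1
    exact absurd hm1 not_lt_zero
  obtain ⟨n, hn⟩ := Nat.exists_eq_succ_of_ne_zero h0
  refine ⟨n, not_lt.1 (hm2 n (by omega)), ?_⟩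
  rw [hn] at hm1
  exact hm1

theorem Pr_limit {κ : Cardinal.{v}} (hκ : ℵ₀ < κ) (hI : ∀ a : L, #(Iic a) ≤ κ) {X : L → Set K}
    (hX : ∀ B : Set K, #B = κ → #{a : L | Disjoint (X a) B} ≤ κ) {Kn : ℕ → Set K}
    (hK1 : ∀ n, #(Kn n) < κ) (hK2 : ∀ n, 2 ^ #(Kn n) ≤ κ) (hK3 : ∀ y, ∃ n, y ∈ Kn n)
    {α : Ordinal.{w}} (hlim : IsSuccLimit α) (hα : (Iio α).Countable)
    (h : ∀ β < α, Pr κ X β) : Pr κ X α := by
  classical
  intro 𝒜 Z h𝒜 hZ
  obtain ⟨s, hs0, hsmono, hsα, hs⟩ := exists_seq_of_countable hlim hα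
  obtain ⟨β, hβ⟩ : ∃ β : ℕ → Ordinal.{w}, ∀ n, β n = s (n + 1) - s n := ⟨_, fun _ => rfl⟩
  have hβα : ∀ n, β n < α := fun n => by
    rw [hβ]
    exact (Ordinal.sub_le_self _ _).trans_lt (hsα _)
  have hβc : ∀ n, (Iio (β n)).Countable := fun n =>
    hα.mono fun i hi => lt_trans hi (hβα n)
  let St := {p : Set L × Set K // κ < #p.1 ∧ #p.2 = κ}
  have hstep : ∀ (n : ℕ) (p : St), ∃ (q : St) (W : Set K) (f : Ordinal.{w} → L),
      q.1.1 ⊆ p.1.1 ∧ q.1.2 = p.1.2 ∩ {y | ∀ i < β n, y ∈ X (f i)} ∧ W ⊆ q.1.2 ∧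
      #(Kn n) ≤ #W ∧ (∀ a ∈ q.1.1, W ⊆ X a) ∧ (∀ i < β n, f i ∈ p.1.1 ∧ ∀ a ∈ q.1.1, f i < a) ∧
      ∀ i j, i < j → j < β n → f i < f j := by
    intro n p
    obtain ⟨𝒜', Z', W, f, h1, h2, h3, h4, h5, h6, h7, h8, h9⟩ :=
      Pr_step hκ hI hX hK1 hK2 hK3 (hβc n) (h _ (hβα n)) p.2.1 p.2.2 n
    exact ⟨⟨(𝒜', Z'), h2, h3⟩, W, f, h1, h4, h5, h6, h7, h8, h9⟩
  choose q W f hq1 hq2 hq3 hq4 hq5 hq6 hq7 using hstep
  let S : ℕ → St := fun n => Nat.rec ⟨(𝒜, Z), h𝒜, hZ⟩ (fun n p => q n p) n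
  have hSS : ∀ n, S (n + 1) = q n (S n) := fun n => rfl
  have hA1 : ∀ n k, (S (n + k)).1.1 ⊆ (S n).1.1 := by
    intro n k
    induction k with
    | zero => exact subset_rfl
    | succ k ih => exact (hq1 (n + k) (S (n + k))).trans ih
  have hA : ∀ {n m}, n ≤ m → (S m).1.1 ⊆ (S n).1.1 := by
    intro n m hnm
    obtain ⟨k, rfl⟩ := Nat.exists_eq_add_of_le hnm
    exact hA1 n k
  have hZ1 : ∀ n k, (S (n + k)).1.2 ⊆ (S n).1.2 := by
    intro n k
    induction k with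
    | zero => exact subset_rfl
    | succ k ih =>
      refine Subset.trans ?_ ih
      show (q (n + k) (S (n + k))).1.2 ⊆ _
      rw [hq2]
      exact inter_subset_left
  have hZ2 : ∀ {n m}, n ≤ m → (S m).1.2 ⊆ (S n).1.2 := by
    intro n m hnm
    obtain ⟨k, rfl⟩ := Nat.exists_eq_add_of_le hnm
    exact hZ1 n k
  -- the reserved sets survive
  have hW : ∀ n m, W n (S n) ⊆ (S m).1.2 := by
    intro n m
    rcases le_total m (n + 1) with hm | hm
    · exact (hq3 n (S n)).trans (hZ2 hm)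
    · obtain ⟨k, rfl⟩ := Nat.exists_eq_add_of_le hm
      clear hm
      induction k with
      | zero => exact hq3 n (S n)
      | succ k ih =>
        intro y hy
        show y ∈ (q (n + 1 + k) (S (n + 1 + k))).1.2
        rw [hq2]
        refine ⟨ih hy, fun i hi => ?_⟩
        have h1 := (hq6 (n + 1 + k) (S (n + 1 + k)) i hi).1
        exact hq5 n (S n) _ (hA (Nat.le_add_right _ _) h1) hy
  choose! N hN using hs
  obtain ⟨F, hF⟩ : ∃ F : Ordinal.{w} → L, ∀ i, F i = f (N i) (S (N i)) (i - s (N i)) :=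
    ⟨_, fun _ => rfl⟩
  have hlt : ∀ i < α, i - s (N i) < β (N i) := by
    intro i hi
    rw [hβ, Ordinal.lt_sub, Ordinal.add_sub_cancel_of_le (hN i hi).1]
    exact (hN i hi).2
  have hFmem : ∀ i < α, F i ∈ (S (N i)).1.1 := by
    intro i hi
    rw [hF]
    exact (hq6 (N i) (S (N i)) _ (hlt i hi)).1
  refine ⟨F, fun i hi => ?_, ?_, ?_⟩
  · exact hA (Nat.zero_le _) (hFmem i hi)
  · intro i j hij hj
    have hi : i < α := hij.trans hj
    have hNle : N i ≤ N j := by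
      by_contra hcon
      have h1 : s (N j + 1) ≤ s (N i) := hsmono.monotone (by omega)
      exact absurd ((hN j hj).2.trans_le (h1.trans (hN i hi).1)) (not_lt.2 hij.le)
    rcases eq_or_lt_of_le hNle with heq | hNlt
    · rw [hF, hF, ← heq]
      refine hq7 (N i) (S (N i)) _ _ ?_ ?_
      · rw [Ordinal.lt_sub, Ordinal.add_sub_cancel_of_le (hN i hi).1]
        exact hij
      · have := hlt j hj
        rw [← heq] at this
        exact this
    · have h1 := (hq6 (N i) (S (N i)) _ (hlt i hi)).2 (F j) (hA (Nat.succ_le_of_lt hNlt)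
        (hFmem j hj))
      rw [hF i]
      exact h1
  · apply le_antisymm
    · rw [← hZ]
      exact mk_le_mk_of_subset inter_subset_left
    · by_contra hcon
      have hWC : ∀ n, W n (S n) ⊆ Z ∩ {y | ∀ i < α, y ∈ X (F i)} := by
        intro n y hy
        refine ⟨hW n 0 hy, fun i hi => ?_⟩
        have h1 : y ∈ (q (N i) (S (N i))).1.2 := hW n (N i + 1) hy
        rw [hq2] at h1
        rw [hF]
        exact h1.2 _ (hlt i hi)
      have hKC : ∀ n, #(Kn n) ≤ #(Z ∩ {y | ∀ i < α, y ∈ X (F i)} : Set K) := fun n =>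
        (hq4 n (S n)).trans (mk_le_mk_of_subset (hWC n))
      have hZK : Z ⊆ ⋃ m : ULift.{v} ℕ, Kn m.down := by
        intro y _
        obtain ⟨m, hm⟩ := hK3 y
        simp only [mem_iUnion]
        exact ⟨⟨m⟩, hm⟩
      have hU : #(ULift.{v} ℕ) ≤ ℵ₀ := by simp
      have hV : (⨆ m : ULift.{v} ℕ, #(Kn m.down)) ≤
          #(Z ∩ {y | ∀ i < α, y ∈ X (F i)} : Set K) := ciSup_le' fun m => hKC m.down
      have h1 : #Z < κ := ((mk_le_mk_of_subset hZK).trans (mk_iUnion_le _)).trans_lt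
        ((mul_le_mul' hU hV).trans_lt (mul_lt_of_lt hκ.le hκ (not_le.1 hcon)))
      exact absurd hZ h1.ne

/-- all countable order types -/
theorem Pr_countable {κ : Cardinal.{v}} (hκ : ℵ₀ < κ) (hI : ∀ a : L, #(Iic a) ≤ κ)
    {X : L → Set K}
    (hX : ∀ B : Set K, #B = κ → #{a : L | Disjoint (X a) B} ≤ κ) {Kn : ℕ → Set K}
    (hK1 : ∀ n, #(Kn n) < κ) (hK2 : ∀ n, 2 ^ #(Kn n) ≤ κ) (hK3 : ∀ y, ∃ n, y ∈ Kn n)
    (α : Ordinal.{w}) (hα : (Iio α).Countable) : Pr κ X α := by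
  induction α using Ordinal.limitRecOn with
  | zero => exact Pr_zero κ X
  | add_one α ih =>
    have h1 : (Iio α).Countable := hα.mono fun i hi => lt_trans hi (lt_add_one α)
    have h2 := Pr_succ hκ.le hI hX h1 (ih h1)
    rwa [Order.succ_eq_add_one] at h2
  | limit α hlim ih =>
    exact Pr_limit hκ hI hX hK1 hK2 hK3 hlim hα fun β hβ =>
      ih β hβ (hα.mono fun i hi => lt_trans hi hβ)

/-- finite order types, no hypothesis on `κ` -/
theorem Pr_finite {κ : Cardinal.{v}} (hκ : ℵ₀ ≤ κ) (hI : ∀ a : L, #(Iic a) ≤ κ)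
    {X : L → Set K}
    (hX : ∀ B : Set K, #B = κ → #{a : L | Disjoint (X a) B} ≤ κ) (n : ℕ) :
    Pr κ X (n : Ordinal.{w}) := by
  induction n with
  | zero =>
    rw [Nat.cast_zero]
    exact Pr_zero κ X
  | succ n ih =>
    rw [Nat.cast_succ, ← Order.succ_eq_add_one]
    refine Pr_succ hκ hI hX ?_ ih
    have : (Iio (n : Ordinal.{w})) ⊆ Set.range (fun k : ℕ => (k : Ordinal.{w})) := by
      intro i hi
      obtain ⟨k, hk⟩ := Ordinal.lt_omega0.1 (lt_trans hi (Ordinal.natCast_lt_omega0 n))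
      exact ⟨k, hk.symm⟩
    exact (Set.countable_range _).mono this

end

end Pool.Agent.Lib.MP_cf3da8_lc
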