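import Mathlib

/-!
Positive part: rows with many common points.
-/

set_option autoImplicit false

open Cardinal Order Set

universe v w

namespace Pool.Agent.Lib.MP_cf3da8_lc

section

variable {L K : Type v} [LinearOrder L]

/-- a union of at most `κ` sets of size at most `κ` -/
theorem mk_biUnion_le_of_le {ι α : Type v} {κ : Cardinal.{v}} (hκ : ℵ₀ ≤ κ) (s : Set ι)
    (A : ι → Set α) (hs : #s ≤ κ) (hA : ∀ i ∈ s, #(A i) ≤ κ) : #(⋃ i ∈ s, A i) ≤ κ := by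
  refine (mk_biUnion_le A s).trans ?_
  calc #s * ⨆ x : s, #(A x.1) ≤ κ * κ :=
        mul_le_mul' hs (ciSup_le' fun x => hA x.1 x.2)
    _ = κ := mul_eq_self hκ

/-- removing at most `κ` points from a set of size `> κ` -/
theorem lt_mk_diff {κ : Cardinal.{v}} (hκ : ℵ₀ ≤ κ) {A B : Set L} (hA : κ < #A) (hB : #B ≤ κ) :
    κ < #(A \ B : Set L) := by
  by_contra h
  have h1 : #A ≤ #(A \ B : Set L) + #B := by
    refine (mk_le_mk_of_subset (t := (A \ B) ∪ B) ?_).trans (mk_union_le _ _)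
    intro x hx
    by_cases hxB : x ∈ B
    · exact Or.inr hxB
    · exact Or.inl ⟨hx, hxB⟩
  have h2 : #A ≤ κ + κ := h1.trans (add_le_add (not_lt.1 h) hB)
  rw [add_eq_self hκ] at h2
  exact absurd hA (not_lt.2 h2)

/-- almost all rows meet a large set in a large set -/
theorem big_rows {κ : Cardinal.{v}} (hκ : ℵ₀ ≤ κ) {X : L → Set K}
    (hX : ∀ B : Set K, #B = κ → #{a : L | Disjoint (X a) B} ≤ κ) {Z : Set K} (hZ : #Z = κ) :
    #{a : L | #(Z ∩ X a : Set K) < κ} ≤ κ := by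
  classical
  obtain ⟨e⟩ : Nonempty (Z ≃ Z × Z) := by
    rw [← Cardinal.eq, mk_prod, Cardinal.lift_id, hZ, mul_eq_self hκ]
  set P : K → Set K := fun t => {z | ∃ (hz : z ∈ Z) (ht : t ∈ Z), (e ⟨z, hz⟩).1 = ⟨t, ht⟩} with hP
  have hPcard : ∀ t ∈ Z, #(P t) = κ := by
    intro t ht
    apply le_antisymm
    · rw [← hZ]
      exact mk_le_mk_of_subset fun z hz => hz.1
    · rw [← hZ]
      refine mk_le_of_injective (f := fun s : Z => ⟨(e.symm (⟨t, ht⟩, s)).1, ?_⟩) ?_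
      · exact ⟨(e.symm (⟨t, ht⟩, s)).2, ht, by simp⟩
      · intro s s' h
        have h1 := congrArg Subtype.val h
        have h2 : e.symm (⟨t, ht⟩, s) = e.symm (⟨t, ht⟩, s') := Subtype.ext h1
        have h3 := e.symm.injective h2
        exact (Prod.ext_iff.1 h3).2
  refine le_trans (mk_le_mk_of_subset (t := ⋃ t ∈ Z, {a : L | Disjoint (X a) (P t)}) ?_) ?_
  · intro a ha
    by_contra hcon
    simp only [mem_iUnion, not_exists, mem_ofPred_eq] at hcon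
    have hex : ∀ t : Z, ∃ y, y ∈ X a ∧ y ∈ P t.1 := by
      intro t
      have := hcon t.1 t.2
      rw [Set.not_disjoint_iff] at this
      exact this
    choose y hy1 hy2 using hex
    have hge : κ ≤ #(Z ∩ X a : Set K) := by
      rw [← hZ]
      refine mk_le_of_injective (f := fun t : Z => ⟨y t, (hy2 t).1, hy1 t⟩) ?_
      intro t t' h
      have h1 : y t = y t' := congrArg Subtype.val h
      obtain ⟨hz, ht, he⟩ := hy2 t
      obtain ⟨hz', ht', he'⟩ := hy2 t'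
      have h2 : (⟨y t, hz⟩ : Z) = ⟨y t', hz'⟩ := Subtype.ext h1
      rw [h2, he'] at he
      exact Subtype.ext (congrArg Subtype.val he).symm
    exact absurd ha (not_lt.2 hge)
  · refine (mk_biUnion_le (fun t => {a : L | Disjoint (X a) (P t)}) Z).trans ?_
    calc #Z * ⨆ x : Z, #{a : L | Disjoint (X a) (P x.1)} ≤ κ * κ :=
          mul_le_mul' hZ.le (ciSup_le' fun x => hX _ (hPcard x.1 x.2))
      _ = κ := mul_eq_self hκ

/-- `α` rows of any large set of rows, in increasing order, have a large intersection inside any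
large set -/
def Pr (κ : Cardinal.{v}) (X : L → Set K) (α : Ordinal.{w}) : Prop :=
  ∀ (𝒜 : Set L) (Z : Set K), κ < #𝒜 → #Z = κ → ∃ f : Ordinal.{w} → L, (∀ i < α, f i ∈ 𝒜) ∧
    (∀ i j, i < j → j < α → f i < f j) ∧ #(Z ∩ {y | ∀ i < α, y ∈ X (f i)} : Set K) = κ

theorem Pr_zero (κ : Cardinal.{v}) (X : L → Set K) : Pr.{v, w} κ X 0 := by
  intro 𝒜 Z h𝒜 hZ
  obtain ⟨a, ha⟩ : 𝒜.Nonempty := by
    rw [nonempty_iff_ne_empty]
    rintro rfl
    simp at h𝒜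
  refine ⟨fun _ => a, fun i hi => absurd hi not_lt_zero,
    fun i j _ hj => absurd hj not_lt_zero, ?_⟩
  have : (Z ∩ {y | ∀ i < (0 : Ordinal.{w}), y ∈ X ((fun _ => a) i)} : Set K) = Z := by
    ext y
    simp
  rw [this, hZ]

theorem Pr_succ {κ : Cardinal.{v}} (hκ : ℵ₀ ≤ κ) (hI : ∀ a : L, #(Iic a) ≤ κ) {X : L → Set K}
    (hX : ∀ B : Set K, #B = κ → #{a : L | Disjoint (X a) B} ≤ κ) {α : Ordinal.{w}}
    (hα : (Iio α).Countable) (h : Pr κ X α) : Pr κ X (succ α) := by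
  classical
  intro 𝒜 Z h𝒜 hZ
  obtain ⟨f, hf1, hf2, hf3⟩ := h 𝒜 Z h𝒜 hZ
  set Z' : Set K := Z ∩ {y | ∀ i < α, y ∈ X (f i)} with hZ'
  have hb1 : #{a : L | #(Z' ∩ X a : Set K) < κ} ≤ κ := big_rows hκ hX hf3
  have hcount : (f '' Iio α).Countable := hα.image f
  have hb2 : #(⋃ r ∈ f '' Iio α, Iic r : Set L) ≤ κ :=
    mk_biUnion_le_of_le hκ _ _ (hcount.le_aleph0.trans hκ) fun r _ => hI r
  have hlt := lt_mk_diff hκ (lt_mk_diff hκ h𝒜 hb1) hb2
  obtain ⟨a, ⟨ha1, ha2⟩, ha3⟩ : ((𝒜 \ {a : L | #(Z' ∩ X a : Set K) < κ}) \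
      (⋃ r ∈ f '' Iio α, Iic r : Set L)).Nonempty := by
    rw [nonempty_iff_ne_empty]
    intro he
    rw [he] at hlt
    simp at hlt
  have ha4 : ∀ i < α, f i < a := by
    intro i hi
    by_contra hcon
    apply ha3
    simp only [mem_iUnion]
    exact ⟨f i, ⟨i, hi, rfl⟩, not_lt.1 hcon⟩
  refine ⟨fun i => if i < α then f i else a, ?_, ?_, ?_⟩
  · intro i hi
    by_cases hiα : i < α
    · simp only [if_pos hiα]
      exact hf1 i hiα
    · simp only [if_neg hiα]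
      exact ha1
  · intro i j hij hj
    by_cases hjα : j < α
    · simp only [if_pos hjα, if_pos (hij.trans hjα)]
      exact hf2 i j hij hjα
    · have hjα' : j ≤ α := Order.lt_succ_iff.1 hj
      have hiα : i < α := hij.trans_le hjα'
      simp only [if_pos hiα, if_neg hjα]
      exact ha4 i hiα
  · have he : (Z ∩ {y | ∀ i < succ α, y ∈ X ((fun i => if i < α then f i else a) i)} : Set K) =
        Z' ∩ X a := by
      ext y
      constructor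
      · rintro ⟨hy1, hy2⟩
        refine ⟨⟨hy1, fun i hi => ?_⟩, ?_⟩
        · have := hy2 i (hi.trans (Order.lt_succ α))
          simpa only [if_pos hi] using this
        · have := hy2 α (Order.lt_succ α)
          simpa only [if_neg (lt_irrefl α)] using this
      · rintro ⟨⟨hy1, hy2⟩, hy3⟩
        refine ⟨hy1, fun i hi => ?_⟩
        by_cases hiα : i < α
        · simp only [if_pos hiα]
          exact hy2 i hiα
        · simp only [if_neg hiα]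
          exact hy3
    rw [he]
    apply le_antisymm
    · rw [← hZ]
      exact mk_le_mk_of_subset fun y hy => hy.1.1
    · exact not_lt.1 ha2

/-- one block of the fusion -/
theorem Pr_step {κ : Cardinal.{v}} (hκ : ℵ₀ < κ) (hI : ∀ a : L, #(Iic a) ≤ κ) {X : L → Set K}
    (hX : ∀ B : Set K, #B = κ → #{a : L | Disjoint (X a) B} ≤ κ) {Kn : ℕ → Set K}
    (hK1 : ∀ n, #(Kn n) < κ) (hK2 : ∀ n, 2 ^ #(Kn n) ≤ κ) (hK3 : ∀ y, ∃ n, y ∈ Kn n)
    {β : Ordinal.{w}} (hβ : (Iio β).Countable) (h : Pr κ X β) {𝒜 : Set L} {Z : Set K}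
    (h𝒜 : κ < #𝒜) (hZ : #Z = κ) (n : ℕ) :
    ∃ (𝒜' : Set L) (Z' W : Set K) (f : Ordinal.{w} → L), 𝒜' ⊆ 𝒜 ∧ κ < #𝒜' ∧ #Z' = κ ∧
      Z' = Z ∩ {y | ∀ i < β, y ∈ X (f i)} ∧ W ⊆ Z' ∧ #(Kn n) ≤ #W ∧ (∀ a ∈ 𝒜', W ⊆ X a) ∧
      (∀ i < β, f i ∈ 𝒜 ∧ ∀ a ∈ 𝒜', f i < a) ∧ ∀ i j, i < j → j < β → f i < f j := by
  classical
  have hκ' : ℵ₀ ≤ κ := hκ.le
  have hb1 : #{a : L | #(Z ∩ X a : Set K) < κ} ≤ κ := big_rows hκ' hX hZ
  have h𝒜1 := lt_mk_diff hκ' h𝒜 hb1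
  -- the pieces
  have hex : ∀ a : (𝒜 \ {a : L | #(Z ∩ X a : Set K) < κ} : Set L),
      ∃ m, #(Kn n) ≤ #(Z ∩ X a.1 ∩ Kn m : Set K) := by
    rintro ⟨a, ha1, ha2⟩
    by_contra hcon
    push Not at hcon
    apply ha2
    have hsub : (Z ∩ X a : Set K) ⊆ ⋃ m : ULift.{v} ℕ, (Z ∩ X a ∩ Kn m.down) := by
      intro y hy
      obtain ⟨m, hm⟩ := hK3 y
      simp only [mem_iUnion]
      exact ⟨⟨m⟩, hy, hm⟩
    refine (mk_le_mk_of_subset hsub).trans_lt ?_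
    refine (mk_iUnion_le _).trans_lt ?_
    have hU : #(ULift.{v} ℕ) ≤ ℵ₀ := by simp
    have hV : (⨆ m : ULift.{v} ℕ, #(Z ∩ X a ∩ Kn m.down : Set K)) ≤ #(Kn n) :=
      ciSup_le' fun m => (hcon m.down).le
    exact (mul_le_mul' hU hV).trans_lt (mul_lt_of_lt hκ' hκ (hK1 n))
  choose m hm using hex
  set T : Set (Set K) := {W | ∃ k, W ⊆ Kn k} with hT
  have hTcard : #T ≤ κ := by
    have hsub : T ⊆ ⋃ k : ULift.{v} ℕ, 𝒫 (Kn k.down) := by
      rintro W ⟨k, hk⟩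
      simp only [mem_iUnion]
      exact ⟨⟨k⟩, hk⟩
    refine (mk_le_mk_of_subset hsub).trans ?_
    refine (mk_iUnion_le _).trans ?_
    calc #(ULift.{v} ℕ) * ⨆ k : ULift.{v} ℕ, #(𝒫 (Kn k.down)) ≤ κ * κ := by
          refine mul_le_mul' (by simpa using hκ') (ciSup_le' fun k => ?_)
          rw [mk_powerset]
          exact hK2 k.down
      _ = κ := mul_eq_self hκ'
  let W : (𝒜 \ {a : L | #(Z ∩ X a : Set K) < κ} : Set L) → T :=
    fun a => ⟨Z ∩ X a.1 ∩ Kn (m a), m a, fun y hy => hy.2⟩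
  obtain ⟨W₀, hW₀⟩ : ∃ W₀ : T, κ < #(W ⁻¹' {W₀}) := by
    by_contra hcon
    push Not at hcon
    have h1 : #(𝒜 \ {a : L | #(Z ∩ X a : Set K) < κ} : Set L) =
        Cardinal.sum fun t : T => #(W ⁻¹' {t}) := by
      rw [← mk_sigma]
      exact Cardinal.mk_congr (Equiv.sigmaFiberEquiv W).symm
    have h2 : Cardinal.sum (fun t : T => #(W ⁻¹' {t})) ≤ κ := by
      refine (sum_le_mk_mul_iSup _).trans ?_
      calc #T * ⨆ t : T, #(W ⁻¹' {t}) ≤ κ * κ := mul_le_mul' hTcard (ciSup_le' hcon)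
        _ = κ := mul_eq_self hκ'
    rw [← h1] at h2
    exact absurd h𝒜1 (not_lt.2 h2)
  set 𝒜₂ : Set L := Subtype.val '' (W ⁻¹' {W₀}) with h𝒜₂
  have h𝒜₂card : κ < #𝒜₂ := by
    rw [h𝒜₂, mk_image_eq Subtype.val_injective]
    exact hW₀
  have h𝒜₂sub : 𝒜₂ ⊆ 𝒜 := by
    rintro _ ⟨a, _, rfl⟩
    exact a.2.1
  have hWX : ∀ a ∈ 𝒜₂, W₀.1 ⊆ X a := by
    rintro _ ⟨a, ha, rfl⟩ y hy
    have : W a = W₀ := ha
    rw [← this] at hy
    exact hy.1.2
  obtain ⟨a₀, ha₀⟩ : (W ⁻¹' {W₀}).Nonempty := by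
    rw [nonempty_iff_ne_empty]
    intro he
    rw [he] at hW₀
    simp at hW₀
  have hWZ : W₀.1 ⊆ Z := by
    intro y hy
    have : W a₀ = W₀ := ha₀
    rw [← this] at hy
    exact hy.1.1
  have hWcard : #(Kn n) ≤ #W₀.1 := by
    have : W a₀ = W₀ := ha₀
    rw [← this]
    exact hm a₀
  obtain ⟨f, hf1, hf2, hf3⟩ := h 𝒜₂ Z h𝒜₂card hZ
  have hcount : (f '' Iio β).Countable := hβ.image f
  have hb2 : #(⋃ r ∈ f '' Iio β, Iic r : Set L) ≤ κ :=
    mk_biUnion_le_of_le hκ' _ _ (hcount.le_aleph0.trans hκ') fun r _ => hI r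
  refine ⟨𝒜₂ \ ⋃ r ∈ f '' Iio β, Iic r, _, W₀.1, f, fun a ha => h𝒜₂sub ha.1,
    lt_mk_diff hκ' h𝒜₂card hb2, hf3, rfl, ?_, hWcard, fun a ha => hWX a ha.1, ?_, hf2⟩
  · intro y hy
    exact ⟨hWZ hy, fun i hi => hWX _ (hf1 i hi) hy⟩
  · intro i hi
    refine ⟨h𝒜₂sub (hf1 i hi), fun a ha => ?_⟩
    by_contra hcon
    apply ha.2
    simp only [mem_iUnion]
    exact ⟨f i, ⟨i, hi, rfl⟩, not_lt.1 hcon⟩

end

end Pool.Agent.Lib.MP_cf3da8_lc
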