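import Pool.Agent.Lib.MP_cf3da8_lc.Construction

/-!
Singular cardinals of uncountable cofinality: a family of rows such that every set of columns of
size `lam` is contained in only finitely many rows.
-/

set_option autoImplicit false

open Cardinal Order Set

universe u

namespace Pool.Agent.Lib.MP_cf3da8_lc

/-- an infinite set in a well-order contains a strictly increasing sequence -/
theorem exists_strictMono {W : Type u} [LinearOrder W] [WellFoundedLT W] {A : Set W}
    (hA : A.Infinite) : ∃ b : ℕ → W, StrictMono b ∧ ∀ i, b i ∈ A := by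
  have : Infinite A := hA.to_subtype
  obtain ⟨g, hg⟩ := exists_increasing_or_nonincreasing_subseq (· < ·)
    (fun n : ℕ => ((Infinite.natEmbedding A) n : A))
  rcases hg with hg | hg
  · refine ⟨fun n => ((Infinite.natEmbedding A) (g n) : A).1, ?_, fun i => Subtype.property _⟩
    intro m n hmn
    exact hg m n hmn
  · exfalso
    have hanti : ∀ m n : ℕ, m < n → ((Infinite.natEmbedding A) (g n) : A) <
        (Infinite.natEmbedding A) (g m) := by
      intro m n hmn
      have h1 := hg m n hmn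
      have h2 : (Infinite.natEmbedding A) (g m) ≠ (Infinite.natEmbedding A) (g n) := by
        intro h
        exact hmn.ne (g.injective ((Infinite.natEmbedding A).injective h))
      exact lt_of_le_of_ne (not_lt.1 h1) h2.symm
    obtain ⟨_, ⟨n, rfl⟩, hmin⟩ := WellFounded.has_min (wellFounded_lt (α := A))
      (Set.range fun n : ℕ => (Infinite.natEmbedding A) (g n)) ⟨_, 0, rfl⟩
    exact hmin _ ⟨n + 1, rfl⟩ (hanti n (n + 1) (Nat.lt_succ_self n))

variable {lam : Cardinal.{u}}

/-- The family of rows: every set of columns of size `lam` meets all rows beyond some point, while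
any infinitely many rows have fewer than `lam` common points. -/
theorem construction2 (hsing : lam.IsSingular) (hpow : 2 ^ lam = succ lam)
    (hcof : ℵ₀ < lam.ord.cof) :
    ∃ X : (succ lam).ord.ToType → Set lam.ord.ToType,
      (∀ B : Set lam.ord.ToType, #B = lam → ∃ b₀, ∀ b, b₀ < b → (X b ∩ B).Nonempty) ∧
      (∀ A : Set (succ lam).ord.ToType, A.Infinite →
        #(⋂ b ∈ A, X b : Set lam.ord.ToType) < lam) := by
  classical
  have hinf : ℵ₀ ≤ lam := hsing.aleph0_le
  have hinf' : ℵ₀ < lam := hcof.trans_le (Ordinal.cof_ord_le lam)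
  set K : Type u := lam.ord.ToType with hK
  set L : Type u := (succ lam).ord.ToType with hL
  have hKcard : #K = lam := by simp [hK]
  have hLcard : #L = succ lam := by simp [hL]
  have : Nonempty K := by
    rw [← mk_ne_zero_iff, hKcard]; exact (lt_of_lt_of_le aleph0_pos hinf).ne'
  have hIio : ∀ b : L, #(Iio b) ≤ #K := by
    intro b
    rw [hKcard]
    exact lt_succ_iff.1 (card_Iio_lt b)
  have hIic : ∀ j : K, #(Iic j) < lam := by
    intro j
    have h1 : #(Iio j) < lam := card_Iio_lt j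
    have h2 : (Iic j : Set K) = insert j (Iio j) := by
      ext x; simp [le_iff_eq_or_lt]
    rw [h2]
    refine lt_of_le_of_lt mk_insert_le ?_
    exact add_lt_of_lt hinf h1 (lt_of_lt_of_le one_lt_aleph0 hinf)
  have hexe : ∀ b : L, ∃ f : Iio b → K, Function.Injective f := by
    intro b
    obtain ⟨f⟩ := (Cardinal.le_def _ _).1 (hIio b)
    exact ⟨f, f.injective⟩
  choose e he using hexe
  have s₀ : K := Classical.choice this
  have hexd : ∀ (b a : L), ∃ s : K, ∀ h : a < b, e b ⟨a, h⟩ ≤ s := by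
    intro b a
    by_cases h : a < b
    · exact ⟨e b ⟨a, h⟩, fun _ => le_rfl⟩
    · exact ⟨s₀, fun h' => absurd h' h⟩
  choose d' hd' using hexd
  let d : L → L → K := fun a b => d' b a
  have hd : ∀ (a b : L) (h : a < b), e b ⟨a, h⟩ ≤ d a b := fun a b h => hd' b a h
  have hD : ∀ (b : L) (j : K), #{a : L | a < b ∧ d a b ≤ j} ≤ #(Iic (j : K)) := by
    intro b j
    refine mk_le_of_injective (f := fun a => ⟨e b ⟨a.1, a.2.1⟩, ?_⟩) ?_
    · exact (hd a.1 b a.2.1).trans a.2.2
    · intro a a' h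
      have h1 := congrArg Subtype.val h
      have h2 := he b h1
      have h3 := congrArg Subtype.val h2
      exact Subtype.ext h3
  -- enumeration of all subsets
  obtain ⟨Benum⟩ : Nonempty (L ≃ Set K) := by
    rw [← Cardinal.eq, mk_set, hLcard, hKcard, hpow]
  -- the recursive choice
  let x : L → L → K := WellFounded.fix (wellFounded_lt (α := L)) (fun b IH ζ =>
    if h : ∃ y ∈ Benum ζ, ∀ (b' : L) (hb : b' < b), d b' b ≤ d ζ b → ∀ ζ' : L, ζ' < b' →
      d ζ' b' ≤ d ζ b → y ≠ IH b' hb ζ' then h.choose else Classical.arbitrary K)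
  have hx : ∀ b ζ, x b ζ = if h : ∃ y ∈ Benum ζ, ∀ (b' : L) (_hb : b' < b), d b' b ≤ d ζ b →
      ∀ ζ' : L, ζ' < b' → d ζ' b' ≤ d ζ b → y ≠ x b' ζ' then h.choose
      else Classical.arbitrary K := by
    intro b ζ
    simp only [x]
    rw [WellFounded.fix_eq]
  have hex : ∀ b ζ, #(Benum ζ) = lam → ∃ y ∈ Benum ζ, ∀ (b' : L) (_hb : b' < b),
      d b' b ≤ d ζ b → ∀ ζ' : L, ζ' < b' → d ζ' b' ≤ d ζ b → y ≠ x b' ζ' := by
    intro b ζ hζ
    by_contra hcon
    push Not at hcon
    have hsub : (Benum ζ : Set K) ⊆ ⋃ b' ∈ {a : L | a < b ∧ d a b ≤ d ζ b},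
        (x b') '' {a : L | a < b' ∧ d a b' ≤ d ζ b} := by
      intro y hy
      obtain ⟨b', hb', h1, ζ', hζ', h2, h3⟩ := hcon y hy
      simp only [Set.mem_iUnion]
      exact ⟨b', ⟨hb', h1⟩, ζ', ⟨hζ', h2⟩, h3.symm⟩
    have hcard := mk_le_mk_of_subset hsub
    have hbd : #(⋃ b' ∈ {a : L | a < b ∧ d a b ≤ d ζ b},
        (x b') '' {a : L | a < b' ∧ d a b' ≤ d ζ b} : Set K) < lam := by
      refine lt_of_le_of_lt (mk_biUnion_le _ _) ?_
      refine lt_of_le_of_lt (mul_le_mul' (hD b (d ζ b)) (ciSup_le' (a := #(Iic (d ζ b : K))) ?_)) ?_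
      · intro b'
        exact mk_image_le.trans (hD b'.1 (d ζ b))
      · exact mul_lt_of_lt hinf (hIic _) (hIic _)
    rw [hζ] at hcard
    exact absurd hcard (not_le.2 hbd)
  have hxspec : ∀ b ζ, #(Benum ζ) = lam → x b ζ ∈ Benum ζ ∧ ∀ (b' : L) (_hb : b' < b),
      d b' b ≤ d ζ b → ∀ ζ' : L, ζ' < b' → d ζ' b' ≤ d ζ b → x b ζ ≠ x b' ζ' := by
    intro b ζ hζ
    have h := hex b ζ hζ
    rw [hx b ζ, dif_pos h]
    exact h.choose_spec
  refine ⟨fun b => {y | ∃ ζ : L, ζ < b ∧ #(Benum ζ) = lam ∧ x b ζ = y}, ?_, ?_⟩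
  · intro B hB
    refine ⟨Benum.symm B, fun b hb => ⟨x b (Benum.symm B), ?_, ?_⟩⟩
    · exact ⟨Benum.symm B, hb, by simpa using hB, rfl⟩
    · have := (hxspec b (Benum.symm B) (by simpa using hB)).1
      simpa using this
  · intro A hA
    obtain ⟨b, hb, hbA⟩ := exists_strictMono hA
    -- a bound for the distances
    obtain ⟨j₀, hj₀⟩ : ∃ j₀ : K, ∀ i k : ℕ, d (b i) (b k) ≤ j₀ := by
      have hnc : ¬ IsCofinal (Set.range fun q : ℕ × ℕ => d (b q.1) (b q.2)) := by
        intro hc
        have h1 := cof_le hc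
        have h2 : #(Set.range fun q : ℕ × ℕ => d (b q.1) (b q.2)) ≤ ℵ₀ :=
          (Set.countable_range _).le_aleph0
        have h3 : Order.cof K = lam.ord.cof := Ordinal.cof_toType _
        rw [h3] at h1
        exact absurd (h1.trans h2) (not_le.2 hcof)
      unfold IsCofinal at hnc
      push Not at hnc
      obtain ⟨j, hj⟩ := hnc
      exact ⟨j, fun i k => (hj _ ⟨(i, k), rfl⟩).le⟩
    have hsub : (⋂ c ∈ A, {y | ∃ ζ : L, ζ < c ∧ #(Benum ζ) = lam ∧ x c ζ = y} : Set K) ⊆
        ⋃ c ∈ (Set.range b : Set L), (x c) '' {a : L | a < c ∧ d a c ≤ j₀} := by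
      intro y hy
      by_contra hyn
      have hz : ∀ i : ℕ, ∃ ζ : L, ζ < b i ∧ #(Benum ζ) = lam ∧ x (b i) ζ = y := by
        intro i
        have := Set.mem_iInter₂.1 hy (b i) (hbA i)
        exact this
      choose z hz1 hz2 hz3 using hz
      have hj : ∀ i : ℕ, j₀ < d (z i) (b i) := by
        intro i
        by_contra hle
        apply hyn
        simp only [Set.mem_iUnion]
        exact ⟨b i, ⟨i, rfl⟩, z i, ⟨hz1 i, not_lt.1 hle⟩, hz3 i⟩
      have hdec : ∀ i k : ℕ, i < k → d (z k) (b k) < d (z i) (b i) := by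
        intro i k hik
        by_contra hle
        have h1 := (hxspec (b k) (z k) (hz2 k)).2 (b i) (hb hik) ((hj₀ i k).trans (hj k).le)
          (z i) (hz1 i) (not_lt.1 hle)
        exact h1 (by rw [hz3, hz3])
      obtain ⟨_, ⟨n, rfl⟩, hmin⟩ := WellFounded.has_min (wellFounded_lt (α := K))
        (Set.range fun n : ℕ => d (z n) (b n)) ⟨_, 0, rfl⟩
      exact hmin _ ⟨n + 1, rfl⟩ (hdec n (n + 1) (Nat.lt_succ_self n))
    refine lt_of_le_of_lt (mk_le_mk_of_subset hsub) ?_
    refine lt_of_le_of_lt (mk_biUnion_le _ _) ?_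
    refine lt_of_le_of_lt (mul_le_mul' (b := ℵ₀) (Set.countable_range _).le_aleph0
      (ciSup_le' (a := #(Iic (j₀ : K))) ?_)) ?_
    · intro c
      exact mk_image_le.trans (hD c.1 j₀)
    · exact mul_lt_of_lt hinf hinf' (hIic _)

end Pool.Agent.Lib.MP_cf3da8_lc
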