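import Pool.Agent.Lib.MP_cf3da8_lc.Defs
import Pool.Agent.Lib.MP_cf3da8_lc.Uncountable
import Pool.Agent.Lib.MP_cf3da8_lc.Fusion

/-!
From families of rows to the polarized partition relation.
-/

set_option autoImplicit false

open Cardinal Order Set

universe u

namespace Pool.Agent.Lib.MP_cf3da8_lc

/-- a subset of a cardinal of full size has full order type -/
theorem hasOrderType_of_mk {c : Cardinal.{u}} {A : Set (Set.Iio c.ord)}
    (hA : #A = Cardinal.lift.{u + 1} c) : HasOrderType A c.ord := by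
  have h1 : Ordinal.type (α := A) (· < ·) ≤ Ordinal.type (α := Set.Iio c.ord) (· < ·) :=
    Ordinal.type_le_iff'.2 ⟨(OrderEmbedding.subtype _).ltEmbedding⟩
  have h2 : Ordinal.type (α := Set.Iio c.ord) (· < ·) = Ordinal.lift.{u + 1} c.ord :=
    Ordinal.type_lt_Iio _
  have h3 : Ordinal.lift.{u + 1} c.ord ≤ Ordinal.type (α := A) (· < ·) := by
    have := ord_le_type (α := A) (· < ·)
    rw [hA, ← lift_ord] at this
    exact this
  have h4 : Ordinal.type (α := A) (· < ·) = Ordinal.type (α := Set.Iio c.ord) (· < ·) :=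
    le_antisymm h1 (by rw [h2]; exact h3)
  obtain ⟨e⟩ := Ordinal.type_eq.1 h4
  exact ⟨OrderIso.ofRelIsoLT e⟩

theorem card_of_hasOrderType {o p : Ordinal.{u}} (A : Set (Set.Iio o)) (h : HasOrderType A p) :
    #((Ordinal.ToType.mk '' A : Set o.ToType)) = p.card := by
  obtain ⟨g⟩ := h
  have h1 := mk_image_eq_lift (Ordinal.ToType.mk : Set.Iio o → o.ToType) A
    (Ordinal.ToType.mk.injective)
  have h2 : #A = #(Set.Iio p) := Cardinal.mk_congr g.toEquiv
  rw [h2, mk_Iio_ordinal, Cardinal.lift_lift] at h1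
  exact Cardinal.lift_injective.{u + 1} h1

/-- negative relations from a family of rows -/
theorem not_polarized {lam : Cardinal.{u}} (hinf : ℵ₀ ≤ lam)
    {X : (succ lam).ord.ToType → Set lam.ord.ToType}
    (hX1 : ∀ B : Set lam.ord.ToType, #B = lam → ∃ b₀, ∀ b, b₀ < b → (X b ∩ B).Nonempty)
    {α : Ordinal.{u}}
    (hX2 : ∀ A : Set (succ lam).ord.ToType, #A = α.card →
      #(⋂ b ∈ A, X b : Set lam.ord.ToType) < lam) :
    ¬ Polarized (succ lam) lam (succ lam).ord α lam.ord lam.ord := by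
  classical
  intro hpol
  rcases hpol (fun p =>
    if Ordinal.ToType.mk p.2 ∈ X (Ordinal.ToType.mk p.1) then true else false) with
    ⟨A, B, hA, hB, hc⟩ | ⟨A, B, hA, hB, hc⟩
  · have hAc := card_of_hasOrderType A hA
    have hBc := card_of_hasOrderType B hB
    simp only [card_ord] at hAc hBc
    obtain ⟨b₀, hb₀⟩ := hX1 _ hBc
    have hnot : ¬ (Ordinal.ToType.mk '' A : Set (succ lam).ord.ToType) ⊆ Iic b₀ := by
      intro hsub
      have h1 := mk_le_mk_of_subset hsub
      have h2 : (Iic b₀ : Set (succ lam).ord.ToType) = insert b₀ (Iio b₀) := by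
        ext x; simp [le_iff_eq_or_lt]
      have h3 : #(Iic b₀) < succ lam := by
        rw [h2]
        refine lt_of_le_of_lt mk_insert_le ?_
        exact add_lt_of_lt (hinf.trans (le_succ _)) (card_Iio_lt b₀)
          (lt_of_lt_of_le one_lt_aleph0 (hinf.trans (le_succ _)))
      rw [hAc] at h1
      exact absurd h1 (not_le.2 h3)
    rw [Set.not_subset] at hnot
    obtain ⟨_, ⟨a, ha, rfl⟩, hab⟩ := hnot
    obtain ⟨_, hy1, ⟨b, hb, rfl⟩⟩ := hb₀ _ (not_le.1 hab)
    have := hc a ha b hb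
    simp [hy1] at this
  · have hAc := card_of_hasOrderType A hA
    have hBc := card_of_hasOrderType B hB
    simp only [card_ord] at hAc hBc
    have h1 := hX2 _ hAc
    have hsub : (Ordinal.ToType.mk '' B : Set lam.ord.ToType) ⊆
        ⋂ b ∈ (Ordinal.ToType.mk '' A : Set (succ lam).ord.ToType), X b := by
      rintro _ ⟨b, hb, rfl⟩
      simp only [Set.mem_iInter]
      rintro _ ⟨a, ha, rfl⟩
      have := hc a ha b hb
      by_contra hn
      simp [hn] at this
    have h2 := mk_le_mk_of_subset hsub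
    rw [hBc] at h2
    exact absurd (h2.trans_lt h1) (lt_irrefl _)

/-- positive relations -/
theorem polarized_of_Pr {lam : Cardinal.{u}} {α : Ordinal.{u}}
    (h : ∀ X : Set.Iio (succ lam).ord → Set (Set.Iio lam.ord),
      (∀ B : Set (Set.Iio lam.ord), #B = Cardinal.lift.{u + 1} lam →
        #{a | Disjoint (X a) B} ≤ Cardinal.lift.{u + 1} lam) →
      Pr (Cardinal.lift.{u + 1} lam) X α) :
    Polarized (succ lam) lam (succ lam).ord α lam.ord lam.ord := by
  classical
  intro c
  have hL : #(Set.Iio (succ lam).ord) = succ (Cardinal.lift.{u + 1} lam) := by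
    rw [mk_Iio_ordinal, card_ord, lift_succ]
  have hK : #(Set.Iio lam.ord) = Cardinal.lift.{u + 1} lam := by
    rw [mk_Iio_ordinal, card_ord]
  set X : Set.Iio (succ lam).ord → Set (Set.Iio lam.ord) := fun a => {b | c (a, b) = true} with hXdef
  by_cases hX : ∀ B : Set (Set.Iio lam.ord), #B = Cardinal.lift.{u + 1} lam →
        #{a | Disjoint (X a) B} ≤ Cardinal.lift.{u + 1} lam
  · right
    obtain ⟨f, -, hf2, hf3⟩ := h X hX univ univ (by rw [mk_univ, hL]; exact lt_succ _)
      (by rw [mk_univ, hK])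
    have hmono : StrictMono (fun i : Set.Iio α => f i) := fun i j hij => hf2 i j hij j.2
    refine ⟨Set.range (fun i : Set.Iio α => f i), _, ⟨hmono.orderIso.symm⟩,
      hasOrderType_of_mk hf3, ?_⟩
    rintro _ ⟨i, rfl⟩ b hb
    exact hb.2 i i.2
  · left
    push Not at hX
    obtain ⟨B, hB1, hB2⟩ := hX
    refine ⟨{a | Disjoint (X a) B}, B, hasOrderType_of_mk ?_, hasOrderType_of_mk hB1, ?_⟩
    · apply le_antisymm
      · rw [lift_succ, ← hL]
        exact mk_set_le _
      · rw [lift_succ]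
        exact succ_le_of_lt hB2
    · intro a ha b hb
      by_contra hcon
      have h1 : c (a, b) = true := by simpa using hcon
      exact Set.disjoint_left.1 ha h1 hb

theorem mk_Iic_le {lam : Cardinal.{u}} (hinf : ℵ₀ ≤ lam) (a : Set.Iio (succ lam).ord) :
    #(Iic a) ≤ Cardinal.lift.{u + 1} lam := by
  have hlim : IsSuccLimit (succ lam).ord := isSuccLimit_ord (hinf.trans (le_succ lam))
  have h1 : succ a.1 < (succ lam).ord := hlim.succ_lt a.2
  have h2 : #(Iic a) ≤ #(Set.Iio (succ a.1)) := by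
    refine mk_le_of_injective (f := fun x : Iic a => (⟨x.1.1, ?_⟩ : Set.Iio (succ a.1))) ?_
    · exact Order.lt_succ_iff.2 (show x.1.1 ≤ a.1 from x.2)
    · intro x y hxy
      have h : x.1.1 = y.1.1 := congrArg (fun z : Set.Iio (succ a.1) => z.1) hxy
      exact Subtype.ext (Subtype.ext h)
  rw [mk_Iio_ordinal] at h2
  refine h2.trans ?_
  rw [lift_le]
  exact lt_succ_iff.1 (lt_ord.1 h1)

theorem polarized_finite {lam : Cardinal.{u}} (hinf : ℵ₀ ≤ lam) {α : Ordinal.{u}}
    (hα : α < Ordinal.omega0) : Polarized (succ lam) lam (succ lam).ord α lam.ord lam.ord := by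
  obtain ⟨n, rfl⟩ := Ordinal.lt_omega0.1 hα
  refine polarized_of_Pr fun X hX => Pr_finite ?_ (mk_Iic_le hinf) hX n
  rwa [aleph0_le_lift]

theorem polarized_countable {lam : Cardinal.{u}} (hunc : ℵ₀ < lam) (hcof : lam.ord.cof = ℵ₀)
    (hstrong : ∀ μ < lam, 2 ^ μ < lam) {α : Ordinal.{u}}
    (hα : α < (succ ℵ₀).ord) : Polarized (succ lam) lam (succ lam).ord α lam.ord lam.ord := by
  obtain ⟨S, hS, hScard⟩ := exists_cof_eq lam.ord.ToType
  have hScard' : #S = ℵ₀ := by rw [hScard, ← hcof]; exact Ordinal.cof_toType _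
  have hSc : S.Countable := by
    rw [← le_aleph0_iff_set_countable, hScard']
  have hSne : S.Nonempty := by
    rw [nonempty_iff_ne_empty]
    rintro rfl
    simp at hScard'
    exact aleph0_ne_zero hScard'.symm
  obtain ⟨e, he⟩ := hSc.exists_eq_range hSne
  obtain ⟨Kn, hKn⟩ : ∃ Kn : ℕ → Set (Set.Iio lam.ord), ∀ n,
      Kn n = {y | Ordinal.ToType.mk y ≤ e n} := ⟨_, fun _ => rfl⟩
  have hKcard : ∀ n, ∃ μ : Cardinal.{u}, μ < lam ∧ #(Kn n) = Cardinal.lift.{u + 1} μ := by
    intro n
    refine ⟨#(Iic (e n)), ?_, ?_⟩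
    · have h1 : #(Iio (e n)) < lam := card_Iio_lt (e n)
      have h2 : (Iic (e n) : Set lam.ord.ToType) = insert (e n) (Iio (e n)) := by
        ext x; simp [le_iff_eq_or_lt]
      rw [h2]
      refine lt_of_le_of_lt mk_insert_le ?_
      exact add_lt_of_lt hunc.le h1 (lt_of_lt_of_le one_lt_aleph0 hunc.le)
    · have h3 := mk_image_eq_lift (Ordinal.ToType.mk : Set.Iio lam.ord → lam.ord.ToType) (Kn n)
        (Ordinal.ToType.mk.injective)
      have h4 : (Ordinal.ToType.mk '' Kn n : Set lam.ord.ToType) = Iic (e n) := by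
        ext x
        constructor
        · rintro ⟨y, hy, rfl⟩
          rw [hKn] at hy
          exact hy
        · intro hx
          refine ⟨Ordinal.ToType.mk.symm x, ?_, by simp⟩
          rw [hKn]
          simpa using hx
      rw [h4, Cardinal.lift_id'.{u, u + 1}] at h3
      exact h3.symm
  have hcountable : (Iio α).Countable := by
    rw [← le_aleph0_iff_set_countable, mk_Iio_ordinal, lift_le_aleph0]
    exact lt_succ_iff.1 (lt_ord.1 hα)
  refine polarized_of_Pr fun X hX => Pr_countable (Kn := Kn) ?_ (mk_Iic_le hunc.le) hX ?_ ?_ ?_ α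
    hcountable
  · rwa [aleph0_lt_lift]
  · intro n
    obtain ⟨μ, hμ, h⟩ := hKcard n
    rw [h, lift_lt]
    exact hμ
  · intro n
    obtain ⟨μ, hμ, h⟩ := hKcard n
    rw [h, ← lift_two_power, lift_le]
    exact (hstrong μ hμ).le
  · intro y
    obtain ⟨s, hs, hle⟩ := hS (Ordinal.ToType.mk y)
    rw [he] at hs
    obtain ⟨n, rfl⟩ := hs
    exact ⟨n, by rw [hKn]; exact hle⟩

end Pool.Agent.Lib.MP_cf3da8_lc
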